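import Pool.Agent.W314.BA.Stm

/-!
# Project BA, part G2: functions with the doubling property grow logarithmically
-/

set_option autoImplicit false

open MeasureTheory Set Filter Topology Real

namespace Pool.Agent.W320.BA

open Pool.Agent.W314.BA
open Pool.Agent.W745 (dg dg_add)

noncomputable section

/-- the square root of `Ψ` as a function of the distance -/
def Rr (Ψ : ℝ → ℝ) (ρ : ℝ) : ℝ := √(Ψ (Real.cosh ρ))

lemma Rr_nonneg (Ψ : ℝ → ℝ) (ρ : ℝ) : 0 ≤ Rr Ψ ρ := Real.sqrt_nonneg _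

lemma Rr_neg (Ψ : ℝ → ℝ) (ρ : ℝ) : Rr Ψ (-ρ) = Rr Ψ ρ := by
  unfold Rr; rw [Real.cosh_neg]

lemma Rr_sq {Ψ : ℝ → ℝ} (h : GrowHyp Ψ) (ρ : ℝ) : Rr Ψ ρ ^ 2 = Ψ (Real.cosh ρ) :=
  Real.sq_sqrt (h.nonneg _ (Real.one_le_cosh ρ))

lemma Rr_add {Ψ : ℝ → ℝ} (h : GrowHyp Ψ) (ρ δ : ℝ) : Rr Ψ (ρ + δ) ≤ Rr Ψ ρ + Rr Ψ δ := by
  have h1 := h.tri (dg (ρ / 2)) (dg (δ / 2))
  rw [← dg_add, hh_dg, hh_dg, hh_dg] at h1
  have e1 : 2 * (ρ / 2 + δ / 2) = ρ + δ := by ring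
  have e2 : 2 * (ρ / 2) = ρ := by ring
  have e3 : 2 * (δ / 2) = δ := by ring
  rw [e1, e2, e3] at h1
  exact h1

/-- bound on `[0,1]` -/
lemma Rr_bdd {Ψ : ℝ → ℝ} (h : GrowHyp Ψ) : ∃ B : ℝ, 1 ≤ B ∧ ∀ ρ : ℝ, 0 ≤ ρ → ρ ≤ 1 →
    Rr Ψ ρ ≤ B := by
  obtain ⟨C, hC⟩ := h.bdd (Real.cosh 1)
  refine ⟨max 1 (√C), le_max_left _ _, fun ρ h0 h1 => le_trans ?_ (le_max_right _ _)⟩
  apply Real.sqrt_le_sqrt
  refine hC _ (Real.one_le_cosh ρ) ?_
  rw [Real.cosh_le_cosh, abs_of_nonneg h0, abs_of_pos one_pos]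
  exact h1

lemma Rr_lin {Ψ : ℝ → ℝ} (h : GrowHyp Ψ) {B : ℝ} (hB1 : 1 ≤ B)
    (hB : ∀ ρ : ℝ, 0 ≤ ρ → ρ ≤ 1 → Rr Ψ ρ ≤ B) (δ : ℝ) (hδ : 0 ≤ δ) :
    Rr Ψ δ ≤ B * (δ + 1) := by
  have key : ∀ n : ℕ, ∀ δ : ℝ, 0 ≤ δ → δ ≤ 1 → Rr Ψ (δ + n) ≤ B * (n + 1) := by
    intro n
    induction n with
    | zero =>
      intro δ h0 h1
      have := hB δ h0 h1
      push_cast
      rw [add_zero]
      linarith
    | succ n ih =>
      intro δ h0 h1
      have h2 := ih δ h0 h1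
      have h3 := Rr_add h (δ + n) 1
      have h4 := hB 1 zero_le_one le_rfl
      push_cast
      rw [← add_assoc]
      linarith
  have h1 : (⌊δ⌋₊ : ℝ) ≤ δ := Nat.floor_le hδ
  have h2 : δ < ⌊δ⌋₊ + 1 := Nat.lt_floor_add_one δ
  have h3 := key ⌊δ⌋₊ (δ - ⌊δ⌋₊) (by linarith) (by linarith)
  rw [sub_add_cancel] at h3
  refine h3.trans (mul_le_mul_of_nonneg_left (by linarith) (by linarith))

/-- the average of `1 + log 4 - 2 log |cos (a/2)|` -/
def CC : ℝ := (2 * π)⁻¹ * ∫ a in (0 : ℝ)..(2 * π), (1 + Real.log 4 - 2 * Real.log (Real.cos (a / 2)))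

lemma ii_log : IntervalIntegrable (fun a : ℝ => Real.log (Real.cos (a / 2))) volume 0 (2 * π) := by
  have h1 : IntervalIntegrable (fun x : ℝ => Real.log (Real.cos x)) volume 0 π :=
    intervalIntegrable_log_cos
  have h2 := h1.comp_mul_left (c := (1 / 2 : ℝ))
  have e1 : (0 : ℝ) / (1 / 2) = 0 := by simp
  have e2 : π / (1 / 2) = 2 * π := by ring
  rw [e1, e2] at h2
  refine h2.congr fun a _ => ?_
  show Real.log (Real.cos (1 / 2 * a)) = Real.log (Real.cos (a / 2))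
  congr 2
  ring

lemma ii_main : IntervalIntegrable
    (fun a : ℝ => 1 + Real.log 4 - 2 * Real.log (Real.cos (a / 2))) volume 0 (2 * π) :=
  intervalIntegrable_const.sub (ii_log.const_mul 2)

/-- the distance on the circle -/
lemma rho_bound {r : ℝ} (hr : 0 ≤ r) (a : ℝ) (ha : Real.cos (a / 2) ≠ 0) :
    ∃ ρ : ℝ, 0 ≤ ρ ∧ ρ ≤ 2 * r ∧
      Real.cosh ρ = Real.cosh r ^ 2 + (Real.cosh r ^ 2 - 1) * Real.cos a ∧
      2 * r - ρ ≤ Real.log 4 - 2 * Real.log (Real.cos (a / 2)) := by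
  obtain ⟨x, hx⟩ : ∃ x, x = Real.cosh r := ⟨_, rfl⟩
  have hx1 : 1 ≤ x := by rw [hx]; exact Real.one_le_cosh r
  have hc1 := Real.cos_le_one a
  have hc2 := Real.neg_one_le_cos a
  rw [← hx]
  have hx2 : 1 ≤ x ^ 2 := by nlinarith
  obtain ⟨y, hy⟩ : ∃ y, y = x ^ 2 + (x ^ 2 - 1) * Real.cos a := ⟨_, rfl⟩
  have hy1 : 1 ≤ y := by rw [hy]; nlinarith
  have hy2 : y ≤ 2 * x ^ 2 - 1 := by rw [hy]; nlinarith
  rw [← hy]
  have hcy : Real.cosh (Real.arcosh y) = y := Real.cosh_arcosh hy1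
  have h0 : 0 ≤ Real.arcosh y := Real.arcosh_nonneg hy1
  refine ⟨Real.arcosh y, h0, ?_, hcy, ?_⟩
  · have h1 : Real.cosh (Real.arcosh y) ≤ Real.cosh (2 * r) := by
      rw [hcy, Real.cosh_two_mul, Real.sinh_sq, ← hx]
      linarith
    rw [Real.cosh_le_cosh, abs_of_nonneg h0, abs_of_nonneg (by linarith)] at h1
    exact h1
  · -- lower bound
    have hcs : Real.cos a = 2 * Real.cos (a / 2) ^ 2 - 1 := by
      rw [← Real.cos_two_mul]; congr 1; ring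
    have hc3 : 0 < Real.cos (a / 2) ^ 2 := by positivity
    have hc4 : Real.cos (a / 2) ^ 2 ≤ 1 := by
      rw [sq_le_one_iff_abs_le_one]; exact Real.abs_cos_le_one _
    have h1 : x ^ 2 * Real.cos (a / 2) ^ 2 ≤ y := by
      rw [hy, hcs]; nlinarith
    have h2 : Real.exp r ≤ 2 * x := by
      rw [hx, Real.cosh_eq]
      have := Real.exp_pos (-r)
      linarith
    have h3 : y ≤ Real.exp (Real.arcosh y) := by
      conv_lhs => rw [← hcy]
      rw [Real.cosh_eq]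
      have h4 : Real.exp (-Real.arcosh y) ≤ Real.exp (Real.arcosh y) :=
        Real.exp_le_exp.2 (by linarith)
      linarith
    have h4 : Real.exp (2 * r) * Real.cos (a / 2) ^ 2 / 4 ≤ Real.exp (Real.arcosh y) := by
      have h5 : Real.exp (2 * r) = Real.exp r ^ 2 := by
        rw [← Real.exp_nat_mul]; push_cast; rfl
      have h6 : Real.exp r ^ 2 ≤ (2 * x) ^ 2 := by
        have := Real.exp_pos r
        nlinarith
      rw [h5]
      nlinarith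
    have h5 := Real.log_le_log (by positivity) h4
    rw [Real.log_exp, Real.log_div (by positivity) (by norm_num),
      Real.log_mul (by positivity) (by positivity), Real.log_exp, Real.log_pow] at h5
    push_cast at h5
    linarith

lemma Rr_double {Ψ : ℝ → ℝ} (h : GrowHyp Ψ) {B : ℝ} (hB1 : 1 ≤ B)
    (hB : ∀ ρ : ℝ, 0 ≤ ρ → ρ ≤ 1 → Rr Ψ ρ ≤ B) (r : ℝ) (hr : 0 ≤ r) :
    Rr Ψ (2 * r) ≤ √2 * Rr Ψ r + 2 * (B * |CC|) := by
  obtain ⟨M, hM⟩ : ∃ M, M = Rr Ψ (2 * r) := ⟨_, rfl⟩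
  obtain ⟨x, hx⟩ : ∃ x, x = Real.cosh r := ⟨_, rfl⟩
  have hM0 : 0 ≤ M := by rw [hM]; exact Rr_nonneg _ _
  have hx1 : 1 ≤ x := by rw [hx]; exact Real.one_le_cosh r
  have hx2 : 1 ≤ x ^ 2 := by nlinarith
  have hpi := Real.pi_pos
  -- pointwise bound
  have hpt : ∀ a : ℝ, Real.cos (a / 2) ≠ 0 →
      M ^ 2 - 2 * M * B * (1 + Real.log 4 - 2 * Real.log (Real.cos (a / 2))) ≤
        Ψ (x ^ 2 + (x ^ 2 - 1) * Real.cos a) := by
    intro a ha
    obtain ⟨ρ, h0, h1, h2, h3⟩ := rho_bound hr a ha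
    rw [hx, ← h2, ← Rr_sq h]
    have h4 : M ≤ Rr Ψ ρ + B * (2 * r - ρ + 1) := by
      have h5 := Rr_add h ρ (2 * r - ρ)
      have h6 := Rr_lin h hB1 hB (2 * r - ρ) (by linarith)
      rw [show ρ + (2 * r - ρ) = 2 * r by ring, ← hM] at h5
      linarith
    obtain ⟨b, hb⟩ : ∃ b, b = B * (2 * r - ρ + 1) := ⟨_, rfl⟩
    rw [← hb] at h4
    have hb0 : 0 ≤ b := by rw [hb]; exact mul_nonneg (by linarith) (by linarith)
    have hbl : b ≤ B * (1 + Real.log 4 - 2 * Real.log (Real.cos (a / 2))) := by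
      rw [hb]; exact mul_le_mul_of_nonneg_left (by linarith) (by linarith)
    have h5 : M ^ 2 - 2 * M * b ≤ Rr Ψ ρ ^ 2 := by
      have hR := Rr_nonneg Ψ ρ
      rcases le_total b M with hbM | hbM
      · have : (M - b) ^ 2 ≤ Rr Ψ ρ ^ 2 := by
          apply pow_le_pow_left₀ (by linarith); linarith
        nlinarith
      · nlinarith [sq_nonneg (Rr Ψ ρ), mul_nonneg hM0 hb0, mul_le_mul_of_nonneg_left hbM hM0]
    have h6 := mul_le_mul_of_nonneg_left hbl (show 0 ≤ 2 * M by linarith)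
    nlinarith
  -- integrability
  obtain ⟨C, hC⟩ := h.bdd (2 * x ^ 2 - 1)
  have hint : IntervalIntegrable (fun a : ℝ => Ψ (x ^ 2 + (x ^ 2 - 1) * Real.cos a))
      volume 0 (2 * π) := by
    have hmeas : Measurable (fun a : ℝ => Ψ (x ^ 2 + (x ^ 2 - 1) * Real.cos a)) := by
      apply h.meas.comp
      fun_prop
    refine IntervalIntegrable.mono_fun (f := fun _ : ℝ => C) intervalIntegrable_const
      hmeas.aestronglyMeasurable (Eventually.of_forall fun a => ?_)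
    have hc1 := Real.cos_le_one a
    have hc2 := Real.neg_one_le_cos a
    have g1 : 1 ≤ x ^ 2 + (x ^ 2 - 1) * Real.cos a := by nlinarith
    have g2 : x ^ 2 + (x ^ 2 - 1) * Real.cos a ≤ 2 * x ^ 2 - 1 := by nlinarith
    have g3 := hC _ g1 g2
    have g4 := h.nonneg _ g1
    show ‖Ψ (x ^ 2 + (x ^ 2 - 1) * Real.cos a)‖ ≤ ‖C‖
    rw [Real.norm_eq_abs, Real.norm_eq_abs, abs_of_nonneg g4, abs_of_nonneg (g4.trans g3)]
    exact g3
  have hint2 : IntervalIntegrable (fun a : ℝ =>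
      M ^ 2 - 2 * M * B * (1 + Real.log 4 - 2 * Real.log (Real.cos (a / 2)))) volume 0 (2 * π) :=
    intervalIntegrable_const.sub (ii_main.const_mul (2 * M * B))
  have hae : ∀ᵐ a : ℝ, Real.cos (a / 2) ≠ 0 := by
    have hcount : ({a : ℝ | Real.cos (a / 2) = 0}).Countable := by
      have : {a : ℝ | Real.cos (a / 2) = 0} ⊆
          Set.range (fun k : ℤ => (2 * (k : ℝ) + 1) * π) := by
        intro a ha
        rw [Set.mem_ofPred_eq, Real.cos_eq_zero_iff] at ha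
        obtain ⟨k, hk⟩ := ha
        exact ⟨k, by show (2 * (k : ℝ) + 1) * π = a; linarith⟩
      exact (Set.countable_range _).mono this
    have h0 := hcount.measure_zero volume
    rw [ae_iff]
    simpa using h0
  have hmono : ∫ a in (0 : ℝ)..(2 * π),
      (M ^ 2 - 2 * M * B * (1 + Real.log 4 - 2 * Real.log (Real.cos (a / 2)))) ≤
      ∫ a in (0 : ℝ)..(2 * π), Ψ (x ^ 2 + (x ^ 2 - 1) * Real.cos a) := by
    refine intervalIntegral.integral_mono_ae (by linarith) hint2 hint ?_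
    filter_upwards [hae] with a ha
    exact hpt a ha
  have hval : (2 * π)⁻¹ * ∫ a in (0 : ℝ)..(2 * π),
      (M ^ 2 - 2 * M * B * (1 + Real.log 4 - 2 * Real.log (Real.cos (a / 2)))) =
      M ^ 2 - 2 * M * B * CC := by
    rw [intervalIntegral.integral_sub intervalIntegrable_const (ii_main.const_mul (2 * M * B)),
      intervalIntegral.integral_const_mul, intervalIntegral.integral_const, CC, smul_eq_mul]
    field_simp
    ring
  have hdbl := h.dbl x hx1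
  have h1 : M ^ 2 - 2 * M * B * CC ≤ 2 * Rr Ψ r ^ 2 := by
    rw [← hval, Rr_sq h, ← hx]
    exact (mul_le_mul_of_nonneg_left hmono (by positivity)).trans hdbl
  have h2 : M ^ 2 - 2 * M * (B * |CC|) ≤ 2 * Rr Ψ r ^ 2 := by
    have h3 : M * B * CC ≤ M * B * |CC| :=
      mul_le_mul_of_nonneg_left (le_abs_self _) (mul_nonneg hM0 (by linarith))
    nlinarith
  obtain ⟨c, hc⟩ : ∃ c, c = B * |CC| := ⟨_, rfl⟩
  have hc0 : 0 ≤ c := by rw [hc]; exact mul_nonneg (by linarith) (abs_nonneg _)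
  rw [← hM, ← hc]
  rw [← hc] at h2
  have hs2 : √2 ^ 2 = (2 : ℝ) := Real.sq_sqrt (by norm_num)
  have hs0 : 0 ≤ √(2 : ℝ) * Rr Ψ r := mul_nonneg (Real.sqrt_nonneg _) (Rr_nonneg _ _)
  by_contra hcon
  push Not at hcon
  have h3 : √2 * Rr Ψ r + c < M - c := by linarith
  have h4 : (√2 * Rr Ψ r + c) ^ 2 < (M - c) ^ 2 := pow_lt_pow_left₀ h3 (by linarith) two_ne_zero
  have h5 : (√2 * Rr Ψ r) ^ 2 = 2 * Rr Ψ r ^ 2 := by rw [mul_pow, hs2]
  nlinarith [mul_nonneg hs0 hc0]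

/-- `Grow2Stmt` -/
theorem main : Grow2Stmt := by
  intro Ψ h
  obtain ⟨B, hB1, hB⟩ := Rr_bdd h
  have hs2 : √2 ^ 2 = (2 : ℝ) := Real.sq_sqrt (by norm_num)
  have hs1 : 1 < √(2 : ℝ) := by
    have : (1 : ℝ) < 2 := by norm_num
    rw [show (1 : ℝ) = √1 by simp]
    exact Real.sqrt_lt_sqrt (by norm_num) this
  obtain ⟨c, hc⟩ : ∃ c, c = 2 * (B * |CC|) / (√2 - 1) := ⟨_, rfl⟩
  have hc0 : 0 ≤ c := by
    rw [hc]
    exact div_nonneg (by positivity) (by linarith)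
  have hc1 : 2 * (B * |CC|) = c * (√2 - 1) := by
    rw [hc, div_mul_cancel₀]
    linarith
  have hD : 0 ≤ B + c := by linarith
  -- the doubling
  have key : ∀ k : ℕ, ∀ ρ : ℝ, 0 ≤ ρ → ρ ≤ 2 ^ k → Rr Ψ ρ + c ≤ √2 ^ k * (B + c) := by
    intro k
    induction k with
    | zero =>
      intro ρ h0 h1
      rw [pow_zero] at h1
      have := hB ρ h0 h1
      rw [pow_zero]
      linarith
    | succ k ih =>
      intro ρ h0 h1
      rw [pow_succ] at h1
      have h2 := ih (ρ / 2) (by linarith) (by linarith)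
      have h3 := Rr_double h hB1 hB (ρ / 2) (by linarith)
      rw [show 2 * (ρ / 2) = ρ by ring, hc1] at h3
      rw [pow_succ]
      have h4 := mul_le_mul_of_nonneg_left h2 (show 0 ≤ √(2 : ℝ) by positivity)
      nlinarith
  have key2 : ∀ ρ : ℝ, 0 ≤ ρ → Ψ (Real.cosh ρ) ≤ 2 * (1 + ρ) * (B + c) ^ 2 := by
    intro ρ h0
    have hex : ∃ k : ℕ, ρ ≤ 2 ^ k := by
      obtain ⟨k, hk⟩ := pow_unbounded_of_one_lt ρ (one_lt_two)
      exact ⟨k, hk.le⟩
    classical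
    have hk1 := Nat.find_spec hex
    have hk2 : (2 : ℝ) ^ (Nat.find hex) ≤ 2 * (1 + ρ) := by
      rcases Nat.eq_zero_or_pos (Nat.find hex) with h1 | h1
      · rw [h1, pow_zero]; linarith
      · obtain ⟨j, hj⟩ : ∃ j, Nat.find hex = j + 1 := ⟨Nat.find hex - 1, by omega⟩
        have h2 := Nat.find_min hex (show j < Nat.find hex by omega)
        push Not at h2
        rw [hj, pow_succ]
        linarith
    have h1 := key _ ρ h0 hk1
    have h2 : Rr Ψ ρ ≤ √2 ^ (Nat.find hex) * (B + c) := by linarith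
    rw [← Rr_sq h]
    calc Rr Ψ ρ ^ 2 ≤ (√2 ^ (Nat.find hex) * (B + c)) ^ 2 :=
          pow_le_pow_left₀ (Rr_nonneg _ _) h2 2
      _ = (2 : ℝ) ^ (Nat.find hex) * (B + c) ^ 2 := by
          rw [mul_pow, ← pow_mul, mul_comm (Nat.find hex) 2, pow_mul, hs2]
      _ ≤ 2 * (1 + ρ) * (B + c) ^ 2 := mul_le_mul_of_nonneg_right hk2 (sq_nonneg _)
  refine ⟨4 * (B + c) ^ 2, fun t ht => ?_⟩
  have h1 := key2 (Real.arcosh t) (Real.arcosh_nonneg ht)
  rw [Real.cosh_arcosh ht] at h1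
  have h2 : Real.arcosh t ≤ Real.log 2 + Real.log t := by
    rw [← Real.log_mul (by norm_num) (by linarith)]
    have h3 : Real.exp (Real.arcosh t) ≤ 2 * t := by
      have h4 := Real.cosh_arcosh ht
      rw [Real.cosh_eq] at h4
      have := Real.exp_pos (-Real.arcosh t)
      linarith
    rw [Real.le_log_iff_exp_le (by linarith)]
    exact h3
  have h3 : Real.log 2 ≤ 1 := by
    have := Real.log_two_lt_d9
    linarith
  have h4 : 0 ≤ Real.log t := Real.log_nonneg ht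
  have h5 : 0 ≤ (B + c) ^ 2 := sq_nonneg _
  have h6 : 2 * (1 + Real.arcosh t) ≤ 4 * (1 + Real.log t) := by linarith
  calc Ψ t ≤ 2 * (1 + Real.arcosh t) * (B + c) ^ 2 := h1
    _ ≤ 4 * (1 + Real.log t) * (B + c) ^ 2 := mul_le_mul_of_nonneg_right h6 h5
    _ = 4 * (B + c) ^ 2 * (1 + Real.log t) := by ring

end

end Pool.Agent.W320.BA
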